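import Mathlib

namespace Pool.Agent.P.MP_3feef6_an

variable {H : Type*} [NormedAddCommGroup H] [InnerProductSpace ℂ H] [CompleteSpace H]

/-- `T = V |T|` is the canonical polar decomposition: `V` is isometric on the orthogonal
complement of its kernel and has the same kernel as `T`. -/
def IsPolarPart (T V : H →L[ℂ] H) : Prop :=
  (∀ x ∈ V.kerᗮ, ‖V x‖ = ‖x‖) ∧ V.ker = T.ker ∧ T = V * CFC.abs T

theorem norm_abs_apply (T : H →L[ℂ] H) (x : H) : ‖CFC.abs T x‖ = ‖T x‖ := by
  have h1 : star (CFC.abs T) * CFC.abs T = star T * T := by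
    rw [(CFC.abs_nonneg T).star_eq, CFC.abs_mul_abs]
  rw [ContinuousLinearMap.apply_norm_eq_sqrt_inner_adjoint_right,
    ContinuousLinearMap.apply_norm_eq_sqrt_inner_adjoint_right T]
  exact congrArg (fun A : H →L[ℂ] H => √(RCLike.re (inner ℂ x (A x)))) h1

/-- Every bounded operator has a canonical polar decomposition. -/
theorem exists_isPolarPart (T : H →L[ℂ] H) : ∃ V, IsPolarPart T V := by
  set A := CFC.abs T with hA
  have hAs : ContinuousLinearMap.adjoint A = A := (CFC.abs_nonneg T).star_eq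
  have hker : A.ker = T.ker := by
    ext x
    simp only [LinearMap.mem_ker, ContinuousLinearMap.coe_coe]
    rw [← norm_eq_zero, norm_abs_apply, norm_eq_zero]
  have hK : T.kerᗮ = A.range.topologicalClosure := by
    rw [← hker, ContinuousLinearMap.orthogonal_ker, hAs]
  have hmem : ∀ x, A x ∈ T.kerᗮ := fun x => by
    rw [hK]; exact Submodule.le_topologicalClosure _ ⟨x, rfl⟩
  let e : H →ₗ[ℂ] T.kerᗮ := A.toLinearMap.codRestrict _ hmem
  have hd : DenseRange e := by
    rintro ⟨y, hy⟩
    rw [closure_subtype]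
    have h1 : y ∈ closure (A.range : Set H) := by rw [hK] at hy; exact hy
    refine closure_mono ?_ h1
    rintro _ ⟨x, rfl⟩
    exact ⟨e x, ⟨x, rfl⟩, rfl⟩
  have hn : ∀ x, ‖T.toLinearMap x‖ ≤ 1 * ‖e x‖ := fun x => by
    rw [one_mul]; exact (norm_abs_apply T x).ge
  let V₀ : T.kerᗮ →L[ℂ] H := T.toLinearMap.extendOfNorm e
  have h0 : ∀ x, V₀ (e x) = T x := LinearMap.extendOfNorm_eq hd ⟨1, hn⟩
  have hiso : ∀ y, ‖V₀ y‖ = ‖y‖ := fun y =>
    hd.induction_on y (isClosed_eq (by fun_prop) (by fun_prop))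
      (fun x => by rw [h0]; exact (norm_abs_apply T x).symm)
  have hkV : (V₀ ∘L T.kerᗮ.orthogonalProjectionOnto).ker = T.ker := by
    ext x
    simp only [LinearMap.mem_ker, ContinuousLinearMap.coe_coe, ContinuousLinearMap.comp_apply]
    rw [← norm_eq_zero, hiso, norm_eq_zero, Submodule.orthogonalProjectionOnto_eq_zero_iff,
      Submodule.orthogonal_orthogonal]
    rfl
  refine ⟨V₀ ∘L T.kerᗮ.orthogonalProjectionOnto, fun x hx => ?_, hkV, ?_⟩
  · rw [hkV] at hx
    rw [ContinuousLinearMap.comp_apply, hiso, Submodule.norm_orthogonalProjectionOnto_apply _ hx]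
  · ext x
    have h1 : T.kerᗮ.orthogonalProjectionOnto (A x) = e x :=
      Submodule.orthogonalProjectionOnto_mem_subspace_eq_self (e x)
    rw [mul_apply_eq_comp, ContinuousLinearMap.comp_apply, h1, h0]

/-- The isometric factor `V` of the canonical polar decomposition `T = V |T|`. -/
noncomputable def polarPart (T : H →L[ℂ] H) : H →L[ℂ] H := (exists_isPolarPart T).choose

/-- The Aluthge transform `|T|^(1/2) V |T|^(1/2)`. -/
noncomputable def aluthge (T : H →L[ℂ] H) : H →L[ℂ] H :=
  CFC.sqrt (CFC.abs T) * polarPart T * CFC.sqrt (CFC.abs T)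

/-- The mean transform `(T + |T| V) / 2`. -/
noncomputable def meanTransform (T : H →L[ℂ] H) : H →L[ℂ] H :=
  (1 / 2 : ℂ) • (T + CFC.abs T * polarPart T)

end Pool.Agent.P.MP_3feef6_an
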