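import Pool.Agent.P.MP_3feef6_an.Defs

set_option linter.unusedSectionVars false

namespace Pool.Agent.P.MP_3feef6_an

open ContinuousLinearMap
open scoped InnerProductSpace

variable {H : Type*} [NormedAddCommGroup H] [InnerProductSpace ℂ H] [CompleteSpace H]

theorem mul_app (A B : H →L[ℂ] H) (x : H) : (A * B) x = A (B x) := rfl

theorem polarPart_spec (T : H →L[ℂ] H) : IsPolarPart T (polarPart T) :=
  (exists_isPolarPart T).choose_spec

theorem sa_inner {A : H →L[ℂ] H} (hA : 0 ≤ A) (x y : H) : ⟪A x, y⟫_ℂ = ⟪x, A y⟫_ℂ :=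
  ((nonneg_iff_isPositive A).1 hA).inner_left_eq_inner_right x y

theorem pi_inner {V : H →L[ℂ] H} (hV : ∀ x ∈ V.kerᗮ, ‖V x‖ = ‖x‖) (x y : H) (hy : y ∈ V.kerᗮ) :
    ⟪V x, V y⟫_ℂ = ⟪x, y⟫_ℂ := by
  obtain ⟨a, ha, b, hb, rfl⟩ := V.ker.exists_add_mem_mem_orthogonal x
  have ha' : V a = 0 := ha
  let f : V.kerᗮ →ₗᵢ[ℂ] H := ⟨V.toLinearMap.comp V.kerᗮ.subtype, fun z => hV z z.2⟩
  have h1 : ⟪V b, V y⟫_ℂ = ⟪b, y⟫_ℂ := f.inner_map_map ⟨b, hb⟩ ⟨y, hy⟩
  rw [map_add, ha', zero_add, h1, inner_add_left, Submodule.inner_right_of_mem_orthogonal ha hy,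
    zero_add]

theorem pi_norm_le {V : H →L[ℂ] H} (hV : ∀ x ∈ V.kerᗮ, ‖V x‖ = ‖x‖) (x : H) : ‖V x‖ ≤ ‖x‖ := by
  obtain ⟨a, ha, b, hb, rfl⟩ := V.ker.exists_add_mem_mem_orthogonal x
  have ha' : V a = 0 := ha
  rw [map_add, ha', zero_add, hV b hb]
  have h := norm_add_sq_eq_norm_sq_add_norm_sq_of_inner_eq_zero (𝕜 := ℂ) a b
    (Submodule.inner_right_of_mem_orthogonal ha hb)
  nlinarith [norm_nonneg a, norm_nonneg b, norm_nonneg (a + b)]

theorem range_mem {A : H →L[ℂ] H} (hA : 0 ≤ A) {K : Submodule ℂ H} (hK : ∀ u ∈ K, A u = 0)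
    (x : H) : A x ∈ Kᗮ := by
  rw [Submodule.mem_orthogonal]
  intro u hu
  rw [← sa_inner hA, hK u hu, inner_zero_left]

/-- the quadratic form of a positive operator through its square root -/
theorem re_inner_eq {A : H →L[ℂ] H} (hA : 0 ≤ A) (x : H) :
    (⟪A x, x⟫_ℂ).re = ‖CFC.sqrt A x‖ ^ 2 := by
  conv_lhs => rw [← CFC.sqrt_mul_sqrt_self A hA]
  rw [mul_app, sa_inner (CFC.sqrt_nonneg A), inner_self_eq_norm_sq_to_K]
  norm_cast

theorem le_iff_re {A B : H →L[ℂ] H} (hA : 0 ≤ A) (hB : 0 ≤ B) :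
    A ≤ B ↔ ∀ x, (⟪A x, x⟫_ℂ).re ≤ (⟪B x, x⟫_ℂ).re := by
  rw [ContinuousLinearMap.le_def, isPositive_def']
  have hsa : IsSelfAdjoint (B - A) := hB.isSelfAdjoint.sub hA.isSelfAdjoint
  simp only [hsa, true_and, reApplyInnerSelf, _root_.sub_apply, inner_sub_left,
    map_sub, sub_nonneg]
  rfl

/-- operator monotonicity of the square root -/
theorem le_of_norm_le {A B : H →L[ℂ] H} (hA : 0 ≤ A) (hB : 0 ≤ B) (h : ∀ x, ‖A x‖ ≤ ‖B x‖) :
    A ≤ B := by
  have key : ∀ {C : H →L[ℂ] H}, 0 ≤ C → ∀ x, (⟪(C * C) x, x⟫_ℂ).re = ‖C x‖ ^ 2 := by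
    intro C hC x
    rw [mul_app, sa_inner hC, inner_self_eq_norm_sq_to_K]
    norm_cast
  have hAA : 0 ≤ A * A := by simpa [hA.star_eq] using star_mul_self_nonneg A
  have hBB : 0 ≤ B * B := by simpa [hB.star_eq] using star_mul_self_nonneg B
  have h1 : A * A ≤ B * B := by
    rw [le_iff_re hAA hBB]
    intro x
    rw [key hA, key hB]
    exact pow_le_pow_left₀ (norm_nonneg _) (h x) 2
  have h2 := CFC.sqrt_le_sqrt _ _ h1
  rwa [CFC.sqrt_mul_self A hA, CFC.sqrt_mul_self B hB] at h2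

theorem le_of_sq_le_sq' {a b : ℝ} (hb : 0 ≤ b) (h : a ^ 2 ≤ b ^ 2) : a ≤ b :=
  (abs_le_of_sq_le_sq' h hb).2

theorem real_core {α β : ℝ} (h0 : 0 ≤ α) (hab : α ≤ β) (h1 : β + α * β ^ 2 ≤ 2)
    (h2 : 2 ≤ α * (1 + √(β * (2 - α)))) : α = 1 ∧ β = 1 := by
  have hα2 : α < 2 := by
    by_contra h
    have h : 2 ≤ α := not_lt.1 h
    nlinarith
  have hβ : 0 ≤ β := h0.trans hab
  have hs : 0 ≤ β * (2 - α) := mul_nonneg hβ (by linarith)
  have h3 : 2 - α ≤ α * √(β * (2 - α)) := by linarith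
  have h4 : (2 - α) ^ 2 ≤ α ^ 2 * (β * (2 - α)) := by
    have := pow_le_pow_left₀ (by linarith) h3 2
    rwa [mul_pow, Real.sq_sqrt hs] at this
  have h5 : 2 - α ≤ α ^ 2 * β := by
    have : (2 - α) * (2 - α) ≤ (2 - α) * (α ^ 2 * β) := by nlinarith
    exact le_of_mul_le_mul_left this (by linarith)
  have h6 : (α * β + 1) * (β - α) ≤ 0 := by nlinarith
  have h7 : β - α ≤ 0 := by
    by_contra h
    have h : 0 < β - α := not_le.1 h
    have : 0 < (α * β + 1) * (β - α) := mul_pos (by positivity) h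
    linarith
  have h8 : β = α := by linarith
  subst h8
  have h9 : (β - 1) * (β ^ 2 + β + 2) = 0 := by nlinarith
  have h10 : β - 1 = 0 := (mul_eq_zero.1 h9).resolve_right (by positivity)
  constructor <;> linarith

/-- The analytic core. -/
theorem core {P B V W : H →L[ℂ] H} (hP : 0 ≤ P) (hB : 0 ≤ B)
    (hVle : ∀ x, ‖V x‖ ≤ ‖x‖) (hWle : ∀ x, ‖W x‖ ≤ ‖x‖)
    (hV : ∀ x y, ⟪V x, V (P y)⟫_ℂ = ⟪x, P y⟫_ℂ) (hW : ∀ x y, ⟪W x, W (B y)⟫_ℂ = ⟪x, B y⟫_ℂ)
    (h1 : ∀ x, W (B x) = P (V (P x)))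
    (h2 : ∀ x, (2 : ℂ) • V (P (P x)) = W (B x) + B (W x)) : ∀ x, P (W x) = V (P x) ∧ B x = P (P x) := by
  set C := CFC.sqrt B with hC
  have hCn : 0 ≤ C := CFC.sqrt_nonneg B
  have hq : ∀ x, (⟪B x, x⟫_ℂ).re = ‖C x‖ ^ 2 := re_inner_eq hB
  have hPP : 0 ≤ P * P := by simpa [hP.star_eq] using star_mul_self_nonneg P
  have hp : ∀ x, (⟪(P * P) x, x⟫_ℂ).re = ‖P x‖ ^ 2 := by
    intro x
    rw [mul_app, sa_inner hP, inner_self_eq_norm_sq_to_K]
    norm_cast
  have hBC : ∀ x y, ⟪B x, y⟫_ℂ = ⟪C x, C y⟫_ℂ := by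
    intro x y
    conv_lhs => rw [← CFC.sqrt_mul_sqrt_self B hB]
    rw [mul_app, sa_inner hCn]
  -- F1
  have hF1 : ∀ x, ‖C x‖ ^ 2 + ‖C (W x)‖ ^ 2 ≤ 2 * ‖P x‖ ^ 2 := by
    have hA0 : 0 ≤ B + star W * B * W := add_nonneg hB (star_left_conjugate_nonneg hB W)
    have hQ0 : 0 ≤ P * P + P * P := add_nonneg hPP hPP
    have hAeq : ∀ x, (B + star W * B * W) x = adjoint W ((2 : ℂ) • V (P (P x))) := by
      intro x
      apply ext_inner_left ℂ
      intro y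
      rw [adjoint_inner_right, h2, inner_add_right, hW, _root_.add_apply,
        inner_add_right, mul_app, mul_app, star_eq_adjoint, adjoint_inner_right]
    have hadj : ∀ z, ‖adjoint W z‖ ≤ ‖z‖ := by
      intro z
      have hn : ‖W‖ ≤ 1 := opNorm_le_bound _ zero_le_one (by simpa using hWle)
      have := (adjoint W).le_opNorm z
      rw [LinearIsometryEquiv.norm_map] at this
      nlinarith [norm_nonneg z]
    have hle : B + star W * B * W ≤ P * P + P * P := by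
      apply le_of_norm_le hA0 hQ0
      intro x
      rw [hAeq]
      refine (hadj _).trans ?_
      rw [← map_smul]
      refine (hVle _).trans (le_of_eq ?_)
      rw [two_smul]
      rfl
    intro x
    have := (le_iff_re hA0 hQ0).1 hle x
    rw [_root_.add_apply, _root_.add_apply, inner_add_left,
      inner_add_left, Complex.add_re, Complex.add_re, hq, hp, mul_app, mul_app, star_eq_adjoint,
      adjoint_inner_left, hq] at this
    linarith
  -- F2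
  have hF2e : ∀ x, (⟪P (W x), V (P x)⟫_ℂ).re = ‖C x‖ ^ 2 := by
    intro x
    rw [sa_inner hP, ← h1, hW, ← sa_inner hB, hq]
  have hF2 : ∀ x, ‖C x‖ ^ 2 ≤ ‖P (W x)‖ * ‖P x‖ := by
    intro x
    rw [← hF2e]
    refine (re_inner_le_norm (𝕜 := ℂ) _ _).trans ?_
    exact mul_le_mul_of_nonneg_left (hVle _) (norm_nonneg _)
  -- F3
  have hF3 : ∀ x, 2 * ‖P x‖ ^ 2 ≤ ‖P x‖ * ‖P (V x)‖ + ‖C (W x)‖ * ‖C (V x)‖ := by
    intro x
    have e1 : (⟪V x, (2 : ℂ) • V (P (P x))⟫_ℂ).re = 2 * ‖P x‖ ^ 2 := by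
      rw [inner_smul_right, hV, ← hp, mul_app, sa_inner hP (P x) x, ← sa_inner hP x (P x)]
      simp
    have e2 : (⟪V x, W (B x)⟫_ℂ).re ≤ ‖P x‖ * ‖P (V x)‖ := by
      rw [h1, ← sa_inner hP, mul_comm]
      refine (re_inner_le_norm (𝕜 := ℂ) _ _).trans ?_
      exact mul_le_mul_of_nonneg_left (hVle _) (norm_nonneg _)
    have e3 : (⟪V x, B (W x)⟫_ℂ).re ≤ ‖C (W x)‖ * ‖C (V x)‖ := by
      rw [← sa_inner hB, hBC, mul_comm]
      exact re_inner_le_norm (𝕜 := ℂ) _ _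
    rw [h2, inner_add_right, Complex.add_re] at e1
    linarith
  have hWB : ∀ x, ‖W (B x)‖ ≤ ‖B x‖ := fun x => hWle _
  by_cases hP0 : ∀ x, P x = 0
  · intro x
    refine ⟨by rw [hP0, hP0, map_zero], ?_⟩
    have h3 := hF1 x
    rw [hP0, norm_zero] at h3
    have h4 : ‖C x‖ = 0 := by nlinarith [norm_nonneg (C x), sq_nonneg ‖C (W x)‖]
    rw [hP0, ← CFC.sqrt_mul_sqrt_self B hB, mul_app, norm_eq_zero.1 h4, map_zero]
  push Not at hP0
  obtain ⟨x₀, hx₀⟩ := hP0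
  set R : Set ℝ := {r | ∃ x, P x ≠ 0 ∧ r = ‖C x‖ ^ 2 / ‖P x‖ ^ 2} with hR
  have hRne : R.Nonempty := ⟨_, x₀, hx₀, rfl⟩
  have hRb : BddBelow R := ⟨0, by rintro r ⟨x, _, rfl⟩; positivity⟩
  have hRa : BddAbove R := by
    refine ⟨2, ?_⟩
    rintro r ⟨x, hx, rfl⟩
    have : 0 < ‖P x‖ ^ 2 := by positivity
    rw [div_le_iff₀ this]
    nlinarith [hF1 x, sq_nonneg ‖C (W x)‖]
  set α := sInf R with hα
  set β := sSup R with hβ
  have hα0 : 0 ≤ α := le_csInf hRne (by rintro r ⟨x, _, rfl⟩; positivity)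
  have hαβ : α ≤ β := csInf_le_csSup hRne hRb hRa
  have hlow : ∀ x, α * ‖P x‖ ^ 2 ≤ ‖C x‖ ^ 2 := by
    intro x
    by_cases hx : P x = 0
    · rw [hx]; simp
    · have : 0 < ‖P x‖ ^ 2 := by positivity
      rw [← le_div_iff₀ this]
      exact csInf_le hRb ⟨x, hx, rfl⟩
  have hup : ∀ x, ‖C x‖ ^ 2 ≤ β * ‖P x‖ ^ 2 := by
    intro x
    by_cases hx : P x = 0
    · have h3 := hF1 x
      rw [hx] at h3 ⊢
      simp only [norm_zero] at h3 ⊢
      nlinarith [sq_nonneg ‖C (W x)‖]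
    · have : 0 < ‖P x‖ ^ 2 := by positivity
      rw [← div_le_iff₀ this]
      exact le_csSup hRa ⟨x, hx, rfl⟩
  have hI : β + α * β ^ 2 ≤ 2 := by
    have hcl : IsClosed {r : ℝ | r + α * r ^ 2 ≤ 2} := isClosed_le (by fun_prop) (by fun_prop)
    have hsub : R ⊆ {r : ℝ | r + α * r ^ 2 ≤ 2} := by
      rintro r ⟨x, hx, rfl⟩
      have hp0 : 0 < ‖P x‖ ^ 2 := by positivity
      have a1 := hF1 x
      have a2 := hF2 x
      have a3 := hlow (W x)
      have a4 : (‖C x‖ ^ 2) ^ 2 ≤ ‖P (W x)‖ ^ 2 * ‖P x‖ ^ 2 := by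
        rw [← mul_pow]; exact pow_le_pow_left₀ (by positivity) a2 2
      show ‖C x‖ ^ 2 / ‖P x‖ ^ 2 + α * (‖C x‖ ^ 2 / ‖P x‖ ^ 2) ^ 2 ≤ 2
      set q := ‖C x‖ ^ 2
      set p := ‖P x‖ ^ 2
      set s := ‖P (W x)‖ ^ 2
      have a5 : α * q ^ 2 ≤ (2 * p - q) * p := by
        calc α * q ^ 2 ≤ α * (s * p) := mul_le_mul_of_nonneg_left a4 hα0
          _ = (α * s) * p := by ring
          _ ≤ (2 * p - q) * p := mul_le_mul_of_nonneg_right (by linarith) hp0.le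
      have a6 : q / p + α * (q / p) ^ 2 = (q * p + α * q ^ 2) / p ^ 2 := by field_simp
      rw [a6, div_le_iff₀ (by positivity)]
      nlinarith
    exact hcl.closure_subset_iff.2 hsub (csSup_mem_closure hRne hRa)
  have hβ0 : 0 ≤ β := hα0.trans hαβ
  have hα2 : 0 ≤ 2 - α := by nlinarith [mul_nonneg hα0 (sq_nonneg β)]
  set s := √(β * (2 - α)) with hs
  have hs0 : 0 ≤ s := Real.sqrt_nonneg _
  have hII : ∀ x, 2 * ‖P x‖ ≤ (1 + s) * ‖P (V x)‖ := by
    intro x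
    by_cases hx : P x = 0
    · rw [hx, norm_zero, mul_zero]; positivity
    have hp0 : 0 < ‖P x‖ := norm_pos_iff.2 hx
    have a1 : ‖C (W x)‖ ^ 2 ≤ (2 - α) * ‖P x‖ ^ 2 := by linarith [hF1 x, hlow x]
    have a2 := hup (V x)
    have a3 : ‖C (W x)‖ * ‖C (V x)‖ ≤ s * (‖P x‖ * ‖P (V x)‖) := by
      apply le_of_sq_le_sq' (by positivity)
      rw [mul_pow, mul_pow, mul_pow, hs, Real.sq_sqrt (mul_nonneg hβ0 hα2)]
      calc ‖C (W x)‖ ^ 2 * ‖C (V x)‖ ^ 2 ≤ ((2 - α) * ‖P x‖ ^ 2) * (β * ‖P (V x)‖ ^ 2) :=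
            mul_le_mul a1 a2 (by positivity) (by positivity)
        _ = _ := by ring
    have a4 : ‖P x‖ * (2 * ‖P x‖) ≤ ‖P x‖ * ((1 + s) * ‖P (V x)‖) := by nlinarith [hF3 x]
    exact le_of_mul_le_mul_left a4 hp0
  have hII' : ∀ x, 2 * ‖P x‖ ^ 2 ≤ (1 + s) * ‖C x‖ ^ 2 := by
    have hc : (0 : ℝ) ≤ 1 + s := by positivity
    have hB' : 0 ≤ (1 + s) • B := smul_nonneg hc hB
    have hQ0 : 0 ≤ P * P + P * P := add_nonneg hPP hPP
    have hle : P * P + P * P ≤ (1 + s) • B := by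
      apply le_of_norm_le hQ0 hB'
      intro x
      have a1 := hII (P x)
      rw [← h1] at a1
      have a2 : ‖(P * P + P * P) x‖ = 2 * ‖P (P x)‖ := by
        rw [_root_.add_apply, mul_app, ← two_smul ℝ, norm_smul]; simp
      rw [a2, _root_.smul_apply, norm_smul, Real.norm_of_nonneg hc]
      exact a1.trans (mul_le_mul_of_nonneg_left (hWB x) hc)
    intro x
    have := (le_iff_re hQ0 hB').1 hle x
    rw [_root_.add_apply, inner_add_left, Complex.add_re, hp,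
      _root_.smul_apply, ← Complex.coe_smul, inner_smul_left, Complex.conj_ofReal,
      Complex.re_ofReal_mul, hq] at this
    linarith
  have hII'' : 2 ≤ α * (1 + s) := by
    have hc : (0 : ℝ) < 1 + s := by positivity
    rw [← div_le_iff₀ hc]
    apply le_csInf hRne
    rintro r ⟨x, hx, rfl⟩
    rw [div_le_div_iff₀ hc (by positivity)]
    linarith [hII' x]
  obtain ⟨hα1, hβ1⟩ := real_core hα0 hαβ hI hII''
  have heq : ∀ x, ‖C x‖ ^ 2 = ‖P x‖ ^ 2 := by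
    intro x
    have a1 := hlow x
    have a2 := hup x
    rw [hα1] at a1
    rw [hβ1] at a2
    linarith
  have hBP : B = P * P := by
    apply le_antisymm
    · rw [le_iff_re hB hPP]; intro x; rw [hq, hp, heq]
    · rw [le_iff_re hPP hB]; intro x; rw [hq, hp, heq]
  intro x
  refine ⟨?_, by rw [hBP]; rfl⟩
  have a1 := hF1 x
  rw [heq, heq] at a1
  have a2 := hF2e x
  rw [heq] at a2
  have a3 : ‖V (P x)‖ ^ 2 ≤ ‖P x‖ ^ 2 := pow_le_pow_left₀ (norm_nonneg _) (hVle _) 2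
  have a4 := norm_sub_sq (𝕜 := ℂ) (P (W x)) (V (P x))
  have a5 : RCLike.re ⟪P (W x), V (P x)⟫_ℂ = ‖P x‖ ^ 2 := a2
  rw [a5] at a4
  have a6 : ‖P (W x) - V (P x)‖ ^ 2 ≤ 0 := by linarith
  have a7 : ‖P (W x) - V (P x)‖ = 0 := by nlinarith [norm_nonneg (P (W x) - V (P x))]
  exact sub_eq_zero.1 (norm_eq_zero.1 a7)

theorem ker_abs (T : H →L[ℂ] H) (x : H) : CFC.abs T x = 0 ↔ T x = 0 := by
  rw [← norm_eq_zero, norm_abs_apply, norm_eq_zero]

theorem ker_sqrt {A : H →L[ℂ] H} (hA : 0 ≤ A) (x : H) (hx : A x = 0) : CFC.sqrt A x = 0 := by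
  have := re_inner_eq hA x
  rw [hx, inner_zero_left, Complex.zero_re] at this
  exact norm_eq_zero.1 (pow_eq_zero_iff two_ne_zero |>.1 this.symm)

theorem forward (T : H →L[ℂ] H) (h : meanTransform (aluthge T) = T) :
    Commute T (star T * T) := by
  obtain ⟨hV1, hV2, hV3⟩ := polarPart_spec T
  obtain ⟨hW1, hW2, hW3⟩ := polarPart_spec (aluthge T)
  set S := aluthge T with hS
  set V := polarPart T
  set W := polarPart S
  set P := CFC.sqrt (CFC.abs T) with hPdef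
  set B := CFC.abs S
  have hP : 0 ≤ P := CFC.sqrt_nonneg _
  have hB : 0 ≤ B := CFC.abs_nonneg _
  have hPP : P * P = CFC.abs T := CFC.sqrt_mul_sqrt_self _ (CFC.abs_nonneg T)
  have hSeq : S = P * V * P := rfl
  have hT : ∀ x, T x = V (P (P x)) := by
    intro x
    conv_lhs => rw [hV3, ← hPP]
    rfl
  have h1 : ∀ x, W (B x) = P (V (P x)) := by
    intro x
    rw [← mul_app, ← hW3]
    rfl
  have h2 : ∀ x, (2 : ℂ) • V (P (P x)) = W (B x) + B (W x) := by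
    intro x
    rw [← hT, ← h, h1]
    show (2 : ℂ) • ((1 / 2 : ℂ) • (P (V (P x)) + B (W x))) = _
    rw [smul_smul]
    norm_num
  have hc := core hP hB (pi_norm_le hV1) (pi_norm_le hW1)
    (fun x y => pi_inner hV1 x _ (range_mem hP (fun u hu => by
      rw [hV2] at hu
      exact ker_sqrt (CFC.abs_nonneg T) u ((ker_abs T u).2 hu)) y))
    (fun x y => pi_inner hW1 x _ (range_mem hB (fun u hu => by
      rw [hW2] at hu
      exact (ker_abs S u).2 hu) y)) h1 h2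
  have h3 : ∀ x, V (P (P x)) = P (V (P x)) := by
    intro x
    have a1 := h2 x
    rw [(hc (W x)).2, (hc x).1, h1, ← two_smul ℂ] at a1
    exact smul_right_injective H (two_ne_zero) a1
  have h4 : Commute T P := by
    ext x
    rw [mul_app, mul_app, hT, hT, h3]
  rw [← CFC.abs_mul_abs, ← hPP]
  exact (h4.mul_right h4).mul_right (h4.mul_right h4)

theorem backward (T : H →L[ℂ] H) (h : Commute T (star T * T)) :
    meanTransform (aluthge T) = T := by
  obtain ⟨_, hV2, hV3⟩ := polarPart_spec T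
  have hA : 0 ≤ CFC.abs T := CFC.abs_nonneg T
  have h1 : Commute (CFC.abs T) T := h.symm.cfcₙ_nnreal _
  have h2 : Commute (CFC.sqrt (CFC.abs T)) T := h1.cfcₙ_nnreal _
  have hPP := CFC.sqrt_mul_sqrt_self _ hA
  set V := polarPart T with hVdef
  set A := CFC.abs T with hAdef
  set P := CFC.sqrt A with hPdef
  have hPA : P * A = A * P := by rw [← hPP, mul_assoc]
  have h3 : (P * V - V * P) * A = 0 := by
    rw [sub_mul, mul_assoc, ← hV3, mul_assoc, hPA, ← mul_assoc, ← hV3, h2.eq, sub_self]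
  have h4 : P * V - V * P = 0 := by
    ext x
    obtain ⟨a, ha, b, hb, rfl⟩ := A.ker.exists_add_mem_mem_orthogonal x
    have ha' : A a = 0 := ha
    have ha1 : V a = 0 := by
      have : a ∈ V.ker := by rw [hV2]; exact (ker_abs T a).1 ha'
      exact this
    have ha2 : P a = 0 := ker_sqrt hA a ha'
    have hb' : b ∈ closure (A.range : Set H) := by
      rw [ContinuousLinearMap.orthogonal_ker, ← star_eq_adjoint, hA.star_eq] at hb
      exact hb
    have hb2 : (P * V - V * P) b = 0 := by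
      have hcl : IsClosed {y | (P * V - V * P) y = 0} :=
        isClosed_eq (P * V - V * P).continuous continuous_const
      refine hcl.closure_subset_iff.2 ?_ hb'
      rintro _ ⟨y, rfl⟩
      exact congrArg (fun D : H →L[ℂ] H => D y) h3
    rw [map_add, hb2, _root_.sub_apply, mul_app, mul_app, ha1, ha2]
    simp
  have h5 : P * V = V * P := sub_eq_zero.1 h4
  have h6 : aluthge T = T := by
    show P * V * P = T
    rw [h5, mul_assoc, hPP, ← hV3]
  rw [h6]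
  show (1 / 2 : ℂ) • (T + A * V) = T
  have h7 : A * V = T := by
    rw [← hPP, mul_assoc, h5, ← mul_assoc, h5, mul_assoc, hPP, ← hV3]
  rw [h7, ← two_smul ℂ, smul_smul]
  norm_num

theorem main (T : H →L[ℂ] H) : meanTransform (aluthge T) = T ↔ Commute T (star T * T) :=
  ⟨forward T, backward T⟩

end Pool.Agent.P.MP_3feef6_an
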